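import Mathlib
import Pool.Agent.Q277.CubicAssemble

/-!
# Partial sums of a binomial-sum sequence modulo `p^2`, `p ≡ 1 (mod 3)`

With `a(n) = ∑_{j=0}^n C(n+j,j) C(n,j) C(n-j,j)` we prove, for every prime `p ≡ 1 (mod 3)` and
`m = (p-1)/3`, that `a(0) + a(1) + ... + a(p-1) ≡ C(2m,m) (mod p^2)`.
-/

namespace Pool.Agent.Results.MP_2064c1_nt.PartialSum

/-- `a(n) = ∑_{j=0}^n C(n+j,j) C(n,j) C(n-j,j)`. -/
def a (n : ℕ) : ℕ :=
  ∑ j ∈ Finset.range (n + 1), (n + j).choose j * n.choose j * (n - j).choose j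

/-- For every prime `p ≡ 1 (mod 3)`, with `m = (p-1)/3`:
`a(0) + ... + a(p-1) ≡ C(2m,m) (mod p^2)`. -/
theorem result (p m : ℕ) (hp : p.Prime) (h : p % 3 = 1) (hm : 3 * m + 1 = p) :
    (∑ k ∈ Finset.range p, a k) ≡ (2 * m).choose m [MOD p ^ 2] := by
  have hodd : p % 2 = 1 := by
    rcases hp.eq_two_or_odd with h' | h'
    · omega
    · exact h'
  have h2 := hp.two_le
  obtain ⟨s, hs⟩ : ∃ s, p = 6 * s + 1 := ⟨(p - 1) / 6, by omega⟩
  have : Fact p.Prime := ⟨hp⟩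
  have key := Q277.CubicAssemble.case_one (p := p) s (3 * s) m (by omega) hs rfl (by omega)
  have ha : ∀ n, a n = Q277.CubicAssemble.A n := by
    intro n
    unfold a Q277.CubicAssemble.A
    exact Finset.sum_congr rfl fun j _ => by ring
  rw [Finset.sum_congr rfl fun k _ => ha k]
  apply Nat.ModEq.symm
  rw [← Int.natCast_modEq_iff, Int.modEq_iff_dvd]
  push_cast at key ⊢
  exact key

end Pool.Agent.Results.MP_2064c1_nt.PartialSum
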